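import Mathlib

open Polynomial

namespace Pool.Agent.Results.MP_705328_nt.CommonPrimeOrder

variable {F : Type*} [Field F]

/-- a polynomial whose degree is prime to `r` has an irreducible factor of degree prime to `r` -/
theorem exists_factor (r : ℕ) (A : F[X]) (hA : ¬ r ∣ A.natDegree) :
    ∃ g : F[X], Irreducible g ∧ g ∣ A ∧ ¬ r ∣ g.natDegree := by
  induction A using WfDvdMonoid.induction_on_irreducible with
  | zero => simp at hA
  | unit u hu => 
    rw [natDegree_eq_zero_of_isUnit hu] at hA
    simp at hA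
  | mul a i ha hi ih =>
    by_cases h : r ∣ i.natDegree
    · rw [natDegree_mul hi.ne_zero ha] at hA
      obtain ⟨g, hg, hga, hgr⟩ := ih (fun h' => hA (dvd_add h h'))
      exact ⟨g, hg, Dvd.dvd.mul_left hga i, hgr⟩
    · exact ⟨i, hi, dvd_mul_right i a, h⟩

theorem iter_succ (d : ℕ) (α : F) (n : ℕ) :
    (fun Q : F[X] => Q ^ d + X)^[n + 1] (C α) = ((fun Q : F[X] => Q ^ d + X)^[n] (C α)) ^ d + X := by
  rw [Function.iterate_succ_apply']

theorem natDegree_iter (d : ℕ) (hd : 2 ≤ d) (α : F) (n : ℕ) :
    ((fun Q : F[X] => Q ^ d + X)^[n + 1] (C α)).natDegree = d ^ n := by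
  induction n with
  | zero =>
    rw [iter_succ]
    simp only [Function.iterate_zero, id, pow_zero]
    rw [← C_pow, add_comm, natDegree_X_add_C]
  | succ n ih =>
    rw [iter_succ, natDegree_add_eq_left_of_natDegree_lt, natDegree_pow, ih, pow_succ, mul_comm]
    rw [natDegree_pow, ih, natDegree_X]
    have : 1 ≤ d ^ n := Nat.one_le_pow _ _ (by omega)
    nlinarith

theorem natDegree_iter_sub (d : ℕ) (hd : 2 ≤ d) (α β : F) (n : ℕ) :
    ((fun Q : F[X] => Q ^ d + X)^[n + 1] (C α) - C β).natDegree = d ^ n := by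
  rw [natDegree_sub_C, natDegree_iter d hd]

theorem mk_iter (d : ℕ) (α : F) (g : F[X]) (n : ℕ) :
    AdjoinRoot.mk g ((fun Q : F[X] => Q ^ d + X)^[n] (C α)) =
      (fun z : AdjoinRoot g => z ^ d + AdjoinRoot.root g)^[n] (AdjoinRoot.mk g (C α)) := by
  induction n with
  | zero => rfl
  | succ n ih =>
    rw [iter_succ, Function.iterate_succ_apply', ← ih, map_add, map_pow, AdjoinRoot.mk_X]

/-- periodicity modulo a good irreducible polynomial -/
theorem periodic [Fintype F] (d : ℕ) (hd : 2 ≤ d) (α : F) (g : F[X]) (hg : Irreducible g)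
    (hgood : Nat.gcd d (Fintype.card F ^ g.natDegree - 1) = 1) (L : ℕ)
    (hL : (Fintype.card F ^ g.natDegree).factorial ∣ L) (n : ℕ) :
    g ∣ (fun Q : F[X] => Q ^ d + X)^[n + L] (C α) - (fun Q : F[X] => Q ^ d + X)^[n] (C α) := by
  classical
  have : Fact (Irreducible g) := ⟨hg⟩
  have hg0 : g ≠ 0 := hg.ne_zero
  have : Module.Finite F (AdjoinRoot g) := (AdjoinRoot.powerBasis hg0).finite
  have : Finite (AdjoinRoot g) := Module.finite_of_finite F
  have hcard : Nat.card (AdjoinRoot g) = Fintype.card F ^ g.natDegree := by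
    rw [Module.natCard_eq_pow_finrank (K := F), (AdjoinRoot.powerBasis hg0).finrank,
      AdjoinRoot.powerBasis_dim, Nat.card_eq_fintype_card]
  have hinj : Function.Injective (fun z : AdjoinRoot g => z ^ d + AdjoinRoot.root g) := by
    intro x y hxy
    have hxy' : x ^ d = y ^ d := add_right_cancel hxy
    by_cases hx : x = 0
    · subst hx
      rw [zero_pow (by omega)] at hxy'
      exact (pow_eq_zero_iff (by omega)).1 hxy'.symm |>.symm
    by_cases hy : y = 0
    · subst hy
      rw [zero_pow (by omega)] at hxy'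
      exact (pow_eq_zero_iff (by omega)).1 hxy'
    have hco : (Nat.card (AdjoinRoot g)ˣ).Coprime d := by
      rw [Nat.card_units, hcard]
      exact Nat.Coprime.symm hgood
    have := hco.pow_left_bijective.1 (a₁ := Units.mk0 x hx) (a₂ := Units.mk0 y hy)
      (by ext; simpa using hxy')
    simpa using congrArg Units.val this
  have hbij := Finite.injective_iff_bijective.1 hinj
  let σ : Equiv.Perm (AdjoinRoot g) := Equiv.ofBijective _ hbij
  have hσ : σ ^ L = 1 := by
    obtain ⟨c, rfl⟩ := hL
    have : Nat.card (Equiv.Perm (AdjoinRoot g)) = (Fintype.card F ^ g.natDegree).factorial := by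
      rw [Nat.card_perm, hcard]
    rw [pow_mul, ← this, pow_card_eq_one', one_pow]
  have hit : ∀ m : ℕ, (fun z : AdjoinRoot g => z ^ d + AdjoinRoot.root g)^[m] = ⇑(σ ^ m) := by
    intro m
    rw [Equiv.Perm.coe_pow]
    rfl
  rw [← AdjoinRoot.mk_eq_mk, mk_iter, mk_iter, hit, hit, pow_add, hσ, mul_one]

theorem exists_irred [Fintype F] (k : ℕ) (hk : k ≠ 0) :
    ∃ g : F[X], Irreducible g ∧ g.natDegree = k := by
  obtain ⟨p, hp⟩ := CharP.exists F
  have : Fact p.Prime := ⟨CharP.char_is_prime F p⟩
  have : NeZero k := ⟨hk⟩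
  obtain ⟨a, ha⟩ := Field.exists_primitive_element F (FiniteField.Extension F p k)
  have hint : IsIntegral F a := Algebra.IsIntegral.isIntegral a
  refine ⟨minpoly F a, minpoly.irreducible hint, ?_⟩
  rw [← IntermediateField.adjoin.finrank hint, ha, IntermediateField.finrank_top',
    FiniteField.finrank_extension]

/-- If the multiplicative orders of `q` modulo the primes `l ∣ d`, `l ≠ p`, have a common factor
greater than one, the question has a positive answer for all `α`, `β`, `M`. -/
theorem result (F : Type*) [Field F] [Fintype F] (d : ℕ) (hd : 2 ≤ d)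
    (hord : (d.primeFactors.erase (ringChar F)).gcd
      (fun l => orderOf ((Fintype.card F : ℕ) : ZMod l)) ≠ 1)
    (α β : F) (M : ℝ) :
    ∃ n : ℕ, 1 ≤ n ∧ ∃ g : F[X], Irreducible g ∧
      g ∣ (fun Q : F[X] => Q ^ d + X)^[n] (C α) - C β ∧
      M < (g.natDegree : ℝ) ∧ Nat.gcd d (Fintype.card F ^ g.natDegree - 1) = 1 := by
  classical
  obtain ⟨r, hr, hrd⟩ := Nat.exists_prime_and_dvd hord
  have hp : (ringChar F).Prime := CharP.char_is_prime F (ringChar F)
  obtain ⟨e, -, he⟩ := FiniteField.card F (ringChar F)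
  have hq1 : 1 < Fintype.card F := Fintype.one_lt_card
  have hro : ∀ l : ℕ, l.Prime → l ∣ d → l ≠ ringChar F →
      r ∣ orderOf ((Fintype.card F : ℕ) : ZMod l) := by
    intro l hl hld hlp
    refine hrd.trans (Finset.gcd_dvd (f := fun l => orderOf ((Fintype.card F : ℕ) : ZMod l)) ?_)
    simp only [Finset.mem_erase, Nat.mem_primeFactors]
    exact ⟨hlp, hl, hld, by omega⟩
  -- degrees prime to `r` are good
  have hgood : ∀ k : ℕ, ¬ r ∣ k → Nat.gcd d (Fintype.card F ^ k - 1) = 1 := by
    intro k hk
    by_contra hne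
    obtain ⟨l, hl, hlg⟩ := Nat.exists_prime_and_dvd hne
    have hld : l ∣ d := hlg.trans (Nat.gcd_dvd_left _ _)
    have hlq : l ∣ Fintype.card F ^ k - 1 := hlg.trans (Nat.gcd_dvd_right _ _)
    have hk0 : k ≠ 0 := by rintro rfl; exact hk (dvd_zero r)
    have h1 : 1 ≤ Fintype.card F ^ k := Nat.one_le_pow _ _ (by omega)
    by_cases hlp : l = ringChar F
    · have h2 : l ∣ Fintype.card F ^ k := by
        refine dvd_pow ?_ hk0
        rw [he, hlp]
        exact dvd_pow_self _ e.ne_zero
      have h3 : l ∣ Fintype.card F ^ k - (Fintype.card F ^ k - 1) := Nat.dvd_sub h2 hlq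
      rw [Nat.sub_sub_self h1] at h3
      exact hl.one_lt.ne' (Nat.dvd_one.1 h3)
    · apply hk
      refine (hro l hl hld hlp).trans (orderOf_dvd_of_pow_eq_one ?_)
      have h4 : ((Fintype.card F ^ k - 1 : ℕ) : ZMod l) = 0 := (ZMod.natCast_eq_zero_iff _ _).2 hlq
      rw [Nat.cast_sub h1] at h4
      push_cast at h4
      exact sub_eq_zero.1 h4
  obtain ⟨N, hN⟩ := exists_nat_gt (max M 1)
  have hMN : M < N := lt_of_le_of_lt (le_max_left _ _) hN
  have h1N : 1 ≤ N := by
    have : (1 : ℝ) < N := lt_of_le_of_lt (le_max_right _ _) hN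
    exact_mod_cast this.le
  by_contra hcon
  push Not at hcon
  -- a common period for all small good factors
  set L := (Fintype.card F ^ N).factorial with hLdef
  have hLpos : 1 ≤ L := Nat.factorial_pos _
  have hper : ∀ g : F[X], Irreducible g → ¬ r ∣ g.natDegree → g.natDegree ≤ N → ∀ n : ℕ,
      g ∣ (fun Q : F[X] => Q ^ d + X)^[n + L] (C α) - (fun Q : F[X] => Q ^ d + X)^[n] (C α) := by
    intro g hg hgr hgN n
    refine periodic d hd α g hg (hgood _ hgr) L ?_ n
    exact Nat.factorial_dvd_factorial (Nat.pow_le_pow_right (by omega) hgN)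
  have hsmall : ∀ n : ℕ, 1 ≤ n → ∀ g : F[X], Irreducible g →
      g ∣ (fun Q : F[X] => Q ^ d + X)^[n] (C α) - C β → ¬ r ∣ g.natDegree → g.natDegree ≤ N := by
    intro n hn g hg hdiv hgr
    by_contra hlt
    push Not at hlt
    refine hcon n hn g hg hdiv ?_ (hgood _ hgr)
    exact hMN.trans (by exact_mod_cast hlt)
  by_cases hrdvd : r ∣ d
  · -- then `r` is the characteristic
    have hrp : r = ringChar F := by
      by_contra hne
      have : Fact r.Prime := ⟨hr⟩
      have hq0 : ((Fintype.card F : ℕ) : ZMod r) ≠ 0 := by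
        intro h
        rw [ZMod.natCast_eq_zero_iff, he] at h
        exact hne ((Nat.prime_dvd_prime_iff_eq hr hp).1 (hr.dvd_of_dvd_pow h))
      have h5 := (hro r hr hrdvd hne).trans (ZMod.orderOf_dvd_card_sub_one hq0)
      have h6 := hr.two_le
      have := Nat.le_of_dvd (by omega) h5
      omega
    have hd0 : ((d : ℕ) : F) = 0 := by
      rw [ringChar.spec, ← hrp]; exact hrdvd
    set A := (fun Q : F[X] => Q ^ d + X)^[1 + L] (C α) - C β with hA
    set B := (fun Q : F[X] => Q ^ d + X)^[1] (C α) - C β with hB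
    have hAdeg : A.natDegree = d ^ L := by
      rw [hA, add_comm 1 L]; exact natDegree_iter_sub d hd α β L
    have hBdeg : B.natDegree = 1 := by
      have := natDegree_iter_sub d hd α β 0
      rw [pow_zero] at this
      exact this
    have hBirr : Irreducible B := by
      apply irreducible_of_degree_eq_one
      rw [degree_eq_natDegree (by rintro h; simp [h] at hBdeg), hBdeg]
      rfl
    have hAsep : A.Separable := by
      have hder : derivative A = 1 := by
        rw [hA, add_comm 1 L, iter_succ]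
        simp [derivative_pow, hd0]
      rw [Separable, hder]
      exact isCoprime_one_right
    have hAB : A - B = (fun Q : F[X] => Q ^ d + X)^[1 + L] (C α) -
        (fun Q : F[X] => Q ^ d + X)^[1] (C α) := by
      rw [hA, hB]; ring
    have hr1 : ¬ r ∣ B.natDegree := by
      rw [hBdeg]; exact hr.not_dvd_one
    have hBA : B ∣ A := by
      have := hper B hBirr hr1 (by omega) 1
      rw [← hAB] at this
      simpa using dvd_add this (dvd_refl B)
    obtain ⟨A', hA'⟩ := hBA
    have hA0 : A ≠ 0 := hAsep.ne_zero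
    have hA'0 : A' ≠ 0 := by rintro rfl; simp [hA'] at hA0
    have hA'deg : ¬ r ∣ A'.natDegree := by
      intro h
      have h7 : A.natDegree = 1 + A'.natDegree := by
        rw [hA', natDegree_mul hBirr.ne_zero hA'0, hBdeg]
      have h8 : r ∣ 1 + A'.natDegree := by
        rw [← h7, hAdeg]; exact dvd_pow hrdvd (by omega)
      exact hr.not_dvd_one ((Nat.dvd_add_left h).1 h8)
    obtain ⟨g, hg, hgA', hgr⟩ := exists_factor r A' hA'deg
    have hgA : g ∣ A := hA' ▸ Dvd.dvd.mul_left hgA' B
    have hgN := hsmall (1 + L) (by omega) g hg hgA hgr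
    have hgB : g ∣ B := by
      have := hper g hg hgr hgN 1
      rw [← hAB] at this
      simpa using dvd_sub hgA this
    have hgg : g * g ∣ A := hA' ▸ mul_dvd_mul hgB hgA'
    exact hg.not_isUnit (hAsep.squarefree g hgg)
  · by_cases hαβ : α = β
    · subst hαβ
      obtain ⟨g, hg, hgk⟩ := exists_irred (F := F) (r * N + 1) (by omega)
      have hgr : ¬ r ∣ g.natDegree := by
        rw [hgk]
        intro h
        exact hr.not_dvd_one ((Nat.dvd_add_right (dvd_mul_right r N)).1 h)
      have hdiv := periodic d hd α g hg (hgood _ hgr) _ (dvd_refl _) 0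
      rw [zero_add] at hdiv
      have := hsmall _ (Nat.factorial_pos _) g hg hdiv hgr
      have h9 := hr.two_le
      rw [hgk] at this
      nlinarith
    · obtain ⟨L', hL'⟩ : ∃ L', L = L' + 1 := ⟨L - 1, by omega⟩
      have hdeg : ¬ r ∣ ((fun Q : F[X] => Q ^ d + X)^[L] (C α) - C β).natDegree := by
        rw [hL', natDegree_iter_sub d hd]
        exact fun h => hrdvd (hr.dvd_of_dvd_pow h)
      obtain ⟨g, hg, hgA, hgr⟩ := exists_factor r _ hdeg
      have hgN := hsmall L hLpos g hg hgA hgr
      have h10 := hper g hg hgr hgN 0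
      rw [zero_add] at h10
      have h11 : g ∣ C (α - β) := by
        have := dvd_sub hgA h10
        simpa using this
      exact hg.not_isUnit (isUnit_of_dvd_unit h11 (isUnit_C.2 (sub_ne_zero.2 hαβ).isUnit))

end Pool.Agent.Results.MP_705328_nt.CommonPrimeOrder
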